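import Mathlib
import Pool.Agent.H32.Sieve

namespace Pool.Agent.Results.MP_b665a0_nt.Counter

open Pool.Agent.H32.Sieve

theorem val {x c : ℕ} (h1 : x < 500) (h : blk (x + 1) (sieve x 30) 0 = c) :
    Nat.primeCounting x = c := by
  rw [← h, ← count_eq (B := 30) (by omega)]
  rfl

theorem result : ¬ ∀ n : ℕ, 1 < n → n ≠ 8 → ∃ k : ℕ, 1 ≤ k ∧ k < n ∧ (2 * k + 1).Prime ∧
    (Nat.primeCounting (k * n) : ℤ) - Nat.primeCounting ((k - 1) * n)
      = (Nat.primeCounting ((k + 1) * n) : ℤ) - Nat.primeCounting (k * n) := by
  intro H
  obtain ⟨k, h0, h1, h2, h3⟩ := H 14 (by norm_num) (by norm_num)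
  have v0 : Nat.primeCounting 0 = 0 := val (by norm_num) (by decide +kernel)
  have v1 : Nat.primeCounting 14 = 6 := val (by norm_num) (by decide +kernel)
  have v2 : Nat.primeCounting 28 = 9 := val (by norm_num) (by decide +kernel)
  have v3 : Nat.primeCounting 42 = 13 := val (by norm_num) (by decide +kernel)
  have v4 : Nat.primeCounting 56 = 16 := val (by norm_num) (by decide +kernel)
  have v5 : Nat.primeCounting 70 = 19 := val (by norm_num) (by decide +kernel)
  have v6 : Nat.primeCounting 84 = 23 := val (by norm_num) (by decide +kernel)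
  have v7 : Nat.primeCounting 98 = 25 := val (by norm_num) (by decide +kernel)
  have v8 : Nat.primeCounting 112 = 29 := val (by norm_num) (by decide +kernel)
  have v9 : Nat.primeCounting 126 = 30 := val (by norm_num) (by decide +kernel)
  have v10 : Nat.primeCounting 140 = 34 := val (by norm_num) (by decide +kernel)
  have v11 : Nat.primeCounting 154 = 36 := val (by norm_num) (by decide +kernel)
  have v12 : Nat.primeCounting 168 = 39 := val (by norm_num) (by decide +kernel)
  interval_cases k
  · norm_num only [v0, v1, v2] at h3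
  · norm_num only [v1, v2, v3] at h3
  · norm_num only [v2, v3, v4] at h3
  · norm_num at h2
  · norm_num only [v4, v5, v6] at h3
  · norm_num only [v5, v6, v7] at h3
  · norm_num at h2
  · norm_num only [v7, v8, v9] at h3
  · norm_num only [v8, v9, v10] at h3
  · norm_num at h2
  · norm_num only [v10, v11, v12] at h3
  · norm_num at h2
  · norm_num at h2

end Pool.Agent.Results.MP_b665a0_nt.Counter
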